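import Pool.Agent.J6H9.PL.Stm
import Pool.Agent.J6H45.CoordRestr.Main

/-!
# Project PL: piecewise linear cones are limits of diffeomorphisms (module PL-HOM, helper5)
-/

set_option autoImplicit false

open Filter Topology
open Pool.Agent.J6H45.CoordRestr

namespace Pool.Agent.J6H5.PL

open Pool.Agent.J6H9.PL

variable {n : ℕ}

theorem cl_mul {a b : E n ≃ₜ E n} (ha : a ∈ Cl n) (hb : b ∈ Cl n) : a * b ∈ Cl n :=
  Approximable.mul (fun _ h1 _ h2 => Diffeos_mul h1 h2) ha hb

theorem homog_zero {A : E n → E n} (hA : Homog A) : A 0 = 0 := by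
  have h := hA 0 0 le_rfl
  simpa using h

theorem homog_inv {A : E n ≃ₜ E n} (hA : Homog A) : Homog (A⁻¹ : E n ≃ₜ E n) := by
  intro c y hc
  show A.symm (c • y) = c • A.symm y
  apply A.injective
  rw [A.apply_symm_apply, hA c _ hc, A.apply_symm_apply]

theorem homog_mul {a b : E n ≃ₜ E n} (ha : Homog a) (hb : Homog b) : Homog (a * b : E n ≃ₜ E n) := by
  intro c x hc
  show a (b (c • x)) = c • a (b x)
  rw [hb c x hc, ha c _ hc]

theorem rad_homog {A ρ : E n ≃ₜ E n} (hA : Homog A) (hρ : ∀ x, ρ x = (‖A x‖ / ‖x‖) • x) : Homog ρ := by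
  intro c x hc
  rcases hc.eq_or_lt with rfl | hc0
  · rw [zero_smul, zero_smul, hρ 0, smul_zero]
  · rw [hρ (c • x), hρ x, hA c x hc, norm_smul, norm_smul, Real.norm_of_nonneg hc,
      mul_div_mul_left _ _ hc0.ne', smul_comm]

theorem rad_norm {A ρ : E n ≃ₜ E n} (hA : Homog A) (hρ : ∀ x, ρ x = (‖A x‖ / ‖x‖) • x) (y : E n) :
    ‖(A * ρ⁻¹ : E n ≃ₜ E n) y‖ = ‖y‖ := by
  obtain ⟨x, rfl⟩ := ρ.surjective y
  show ‖A (ρ.symm (ρ x))‖ = ‖ρ x‖
  rw [ρ.symm_apply_apply, hρ x, norm_smul, norm_div, norm_norm, norm_norm]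
  rcases eq_or_ne x 0 with rfl | hx
  · rw [homog_zero hA]
    simp
  · rw [div_mul_cancel₀ _ (norm_ne_zero_iff.2 hx)]

theorem main (h1 : S_Inv) (h2 : S_Ray) (h3 : S_Split) (h4 : S_Rad) (h5 : S_Cone) : S_Hom := by
  intro n
  induction n with
  | zero =>
    intro A _ _
    have hA : A = 1 := by
      ext x i
      exact i.elim0
    rw [hA]
    exact Approximable.of_mem Diffeos_one
  | succ m ih =>
    intro A hA hL
    have key : ∀ p : E (m + 1), p ≠ 0 → ∃ B : E (m + 1) ≃ₜ E (m + 1),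
        B ∈ Cl (m + 1) ∧ Homog B ∧ LinSel B ∧ ∀ᶠ x in 𝓝 p, A x = B x := by
      intro p hp
      obtain ⟨B, hB, hLB, hrel, hev⟩ := h2 (m + 1) A hA hL p hp
      obtain ⟨c, hc, hLc, hcB⟩ := h3 m B hB hLB p (A p) hp hrel
      exact ⟨B, hcB (ih c hc hLc), hB, hLB, hev⟩
    obtain ⟨ρ, hρ, hρx⟩ := h4 (m + 1) A hA hL
    have hρh := rad_homog hA hρx
    have hA' : A * ρ⁻¹ ∈ Cl (m + 1) := by
      refine h5 (m + 1) (A * ρ⁻¹) (homog_mul hA (homog_inv hρh)) (rad_norm hA hρx) ?_ ?_
      · intro q hq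
        have hq' : ρ.symm q ≠ 0 := by
          intro h0
          apply hq
          rw [← ρ.apply_symm_apply q, h0]
          exact homog_zero hρh
        obtain ⟨B, hB, -, -, hev⟩ := key (ρ.symm q) hq'
        exact ⟨B * ρ⁻¹, cl_mul hB (h1 _ _ hρ), (ρ.symm.continuous.tendsto q).eventually hev⟩
      · obtain ⟨p, hp⟩ : ∃ p : E (m + 1), ‖p‖ = 1 := ⟨EuclideanSpace.single 0 1, by simp⟩
        have hp0 : p ≠ 0 := by
          rintro rfl
          simp at hp
        obtain ⟨B, hB, hBh, hBL, hev⟩ := key p hp0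
        obtain ⟨σ, hσ, hσx⟩ := h4 (m + 1) B hBh hBL
        refine ⟨p, hp, B * σ⁻¹, cl_mul hB (h1 _ _ hσ), homog_mul hBh (homog_inv (rad_homog hBh hσx)),
          rad_norm hBh hσx, ?_⟩
        filter_upwards [hev] with x hx
        -- the point with `ρ z = x`
        obtain ⟨z, rfl⟩ := ρ.surjective x
        have hz : A z = B z := by
          rcases eq_or_ne z 0 with rfl | hz0
          · rw [homog_zero hA, homog_zero hBh]
          · have ht : 0 < ‖A z‖ / ‖z‖ := by
              refine div_pos (norm_pos_iff.2 ?_) (norm_pos_iff.2 hz0)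
              intro h0
              apply hz0
              apply A.injective
              rw [h0, homog_zero hA]
            rw [hρx z, hA _ _ ht.le, hBh _ _ ht.le] at hx
            exact smul_right_injective _ ht.ne' hx
        have hσz : σ z = ρ z := by rw [hσx, hρx, hz]
        show A (ρ.symm (ρ z)) = B (σ.symm (ρ z))
        rw [ρ.symm_apply_apply, ← hσz, σ.symm_apply_apply, hz]
    have h6 := cl_mul hA' hρ
    rwa [inv_mul_cancel_right] at h6

end Pool.Agent.J6H5.PL
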